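import Pool.Agent.Helper1.SD.E8Final
import Pool.Agent.Helper92.SDDsix
import Pool.Agent.Helper1.SD.Small
import Pool.Agent.Helper41.SD.SD2a
import Pool.Agent.Helper85.SDKSimp
import Pool.Agent.Helper19.SDPolar
import Pool.Agent.Helper75.SD.NotSimplex
import Pool.Agent.Helper30.SDProd

set_option autoImplicit false

/-!
Self-dual `k`-simplicial `d`-polytopes other than the simplex exist for all `k ≤ 4`, `d ≥ 2k`.

Construction. Let `C` be the cone over a `k`-simplicial and `k`-simple polytope of dimension `2k`
with a facet that is a simplex (a pentagon construction for `k = 1`, the hypersimplex of type `A₄`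
for `k = 2`, the half-cube of type `D₆` for `k = 3`, the Gosset-Elte polytope `2_41` of type `E₈`
for `k = 4`). In suitable coordinates the union of `C` with the part of the dual cone below the
hyperplane of the simplex facet is a cone equal to its own dual; its sections, and those of its
products with orthants, are the required polytopes.
-/

namespace Pool.Agent.Results.MP_437a0d_co.AllPairsUpToFour

open Pool.Agent.Helper1.SD

theorem exists_cone : ∀ k d : ℕ, 1 ≤ k → k ≤ 4 → 2 * k ≤ d →
    ∃ K : Set (Fin (d + 1) → ℝ), GoodCone k K := by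
  intro k d hk hk4 hd
  obtain ⟨e, rfl⟩ := Nat.exists_eq_add_of_le hd
  clear hd
  induction e with
  | zero =>
    interval_cases k
    · exact goodCone_pentagon
    · exact goodCone_A4
    · exact goodCone_D6
    · exact goodCone_E8
  | succ e ih =>
    obtain ⟨K, hK⟩ := ih
    exact ⟨_, goodCone_prod hK⟩

/-- For `1 ≤ k ≤ 4` and every `d ≥ 2k` there is a self-dual `k`-simplicial `d`-polytope that is not
combinatorially isomorphic to a simplex. -/
theorem result : ∀ k d : ℕ, 1 ≤ k → k ≤ 4 → 2 * k ≤ d →
    ∃ (N : ℕ) (P : Set (Fin N → ℝ)), IsPolytope P ∧ adim P = d ∧ KSimplicial k P ∧ SelfDual P ∧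
      ∀ (M : ℕ) (Q : Set (Fin M → ℝ)), IsSimplex Q → ¬ CombIso P Q := by
  intro k d hk hk4 hd
  obtain ⟨K, hK⟩ := exists_cone k d hk hk4 hd
  obtain ⟨h, hh, hpos⟩ := exists_pos hK.selfdual hK.fg
  exact ⟨d + 1, slice K h, isPolytope_slice hK.fg hpos, adim_slice hK.selfdual hpos,
    kSimplicial_slice hK hpos, selfDual_slice hK.selfdual hh hpos,
    fun M Q hQ => not_combIso_slice hK hh hpos hQ⟩

end Pool.Agent.Results.MP_437a0d_co.AllPairsUpToFour
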